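import Mathlib.MeasureTheory.Measure.WithDensity
import Mathlib.MeasureTheory.Function.LpSeminorm.Defs
import Mathlib.MeasureTheory.Measure.Haar.OfBasis

set_option autoImplicit false
open MeasureTheory
open scoped ENNReal

namespace Pool.Agent.MP_37b4fc_an

/-- The K-functional `K(t,a) = inf_y (‖a - ι y‖ + t ‖y‖)` of the couple `E1 ⊂ E0`
whose inclusion map is `ι`. -/
noncomputable def Kf {E0 E1 : Type*} [NormedAddCommGroup E0] [NormedAddCommGroup E1]
    (ι : E1 → E0) (t : ℝ) (a : E0) : ℝ :=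
  ⨅ y : E1, (‖a - ι y‖ + t * ‖y‖)

/-- The K-method norm: the `L^p((0,∞), dt/t)` norm of `t ↦ t^(-θ) K(t,a)`. -/
noncomputable def Knorm {E0 E1 : Type*} [NormedAddCommGroup E0] [NormedAddCommGroup E1]
    (ι : E1 → E0) (θ : ℝ) (p : ℝ≥0∞) (a : E0) : ℝ≥0∞ :=
  eLpNorm (fun t : ℝ => t ^ (-θ) * Kf ι t a) p
    ((volume.restrict (Set.Ioi (0:ℝ))).withDensity (fun t => ENNReal.ofReal t⁻¹))

end Pool.Agent.MP_37b4fc_an
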