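import Mathlib.Topology.Sheaves.Presheaf
import Mathlib.MeasureTheory.Function.LpSeminorm.Basic
import Mathlib.MeasureTheory.Measure.Lebesgue.Basic
import Mathlib.Algebra.Order.Star.Real
import Mathlib.Analysis.CStarAlgebra.Classes
import Mathlib.Analysis.Normed.Lp.lpSpace
import Mathlib.RingTheory.PiTensorProduct
import Mathlib.RingTheory.SimpleRing.Principal
import Pool.Agent.MP_37b4fc_an.Defs

set_option autoImplicit false
open MeasureTheory
open scoped ENNReal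

namespace Pool.Agent.MP_37b4fc_an

universe u

section general
variable {E0 E1 : Type*} [NormedAddCommGroup E0] [NormedAddCommGroup E1]

theorem Kf_bdd (ι : E1 → E0) {t : ℝ} (ht : 0 ≤ t) (a : E0) :
    BddBelow (Set.range fun y : E1 => ‖a - ι y‖ + t * ‖y‖) := by
  refine ⟨0, ?_⟩
  rintro _ ⟨y, rfl⟩
  positivity

theorem Kf_le (ι : E1 → E0) {t : ℝ} (ht : 0 ≤ t) (a : E0) (y : E1) :
    Kf ι t a ≤ ‖a - ι y‖ + t * ‖y‖ :=
  ciInf_le (Kf_bdd ι ht a) y

theorem le_Kf (ι : E1 → E0) (t : ℝ) (a : E0) {c : ℝ} (h : ∀ y, c ≤ ‖a - ι y‖ + t * ‖y‖) :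
    c ≤ Kf ι t a :=
  le_ciInf h

theorem Kf_nonneg (ι : E1 → E0) {t : ℝ} (ht : 0 ≤ t) (a : E0) : 0 ≤ Kf ι t a :=
  le_Kf ι t a fun y => by positivity

/-- the measure `dt/t` on `(0,∞)` -/
noncomputable def mu : Measure ℝ :=
  (volume.restrict (Set.Ioi (0:ℝ))).withDensity (fun t => ENNReal.ofReal t⁻¹)

theorem ae_pos : ∀ᵐ t ∂mu, 0 < t := by
  have h : ∀ᵐ t ∂(volume.restrict (Set.Ioi (0:ℝ))), 0 < t := ae_restrict_mem measurableSet_Ioi
  exact (withDensity_absolutelyContinuous _ _).ae_le h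

theorem vol_ac : (volume.restrict (Set.Ioi (0:ℝ))) ≪ mu := by
  apply withDensity_absolutelyContinuous'
  · exact (measurable_inv.ennreal_ofReal).aemeasurable
  · filter_upwards [ae_restrict_mem (μ := volume) (measurableSet_Ioi (a := (0:ℝ)))] with t ht
    have : 0 < t⁻¹ := inv_pos.mpr ht
    simpa using ht

theorem Knorm_top_le (ι : E1 → E0) (θ : ℝ) (a : E0) {C : ℝ}
    (h : ∀ t, 0 < t → Kf ι t a ≤ C * t ^ θ) : Knorm ι θ ∞ a ≤ ENNReal.ofReal C := by
  unfold Knorm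
  rw [eLpNorm_exponent_top]
  apply eLpNormEssSup_le_of_ae_bound
  filter_upwards [ae_pos] with t ht
  have h1 : 0 < t ^ (-θ) := Real.rpow_pos_of_pos ht _
  rw [Real.norm_of_nonneg (mul_nonneg h1.le (Kf_nonneg ι ht.le a))]
  calc t ^ (-θ) * Kf ι t a ≤ t ^ (-θ) * (C * t ^ θ) :=
        mul_le_mul_of_nonneg_left (h t ht) h1.le
    _ = C * (t ^ (-θ) * t ^ θ) := by ring
    _ = C := by rw [← Real.rpow_add ht]; simp

theorem le_Knorm_top (ι : E1 → E0) (θ : ℝ) (a : E0) {c x : ℝ} (hx : 0 < x)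
    (h : ∀ t, x ≤ t → t ≤ 2 * x → c ≤ t ^ (-θ) * Kf ι t a) :
    ENNReal.ofReal c ≤ Knorm ι θ ∞ a := by
  unfold Knorm
  rw [eLpNorm_exponent_top]
  have h1 := ae_le_eLpNormEssSup (μ := mu) (f := fun t : ℝ => t ^ (-θ) * Kf ι t a)
  have h2 := vol_ac.ae_le h1
  have h3 : (volume.restrict (Set.Ioi (0:ℝ))) (Set.Icc x (2 * x)) ≠ 0 := by
    rw [Measure.restrict_apply measurableSet_Icc]
    have : Set.Icc x (2 * x) ∩ Set.Ioi 0 = Set.Icc x (2 * x) := by
      apply Set.inter_eq_left.mpr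
      intro t ht
      exact lt_of_lt_of_le hx ht.1
    rw [this, Real.volume_Icc]
    have : 0 < 2 * x - x := by linarith
    simpa using this
  obtain ⟨t, ht, ht2⟩ := Measure.exists_mem_of_measure_ne_zero_of_ae h3 (ae_restrict_of_ae h2)
  refine le_trans ?_ ht2
  calc ENNReal.ofReal c ≤ ENNReal.ofReal (t ^ (-θ) * Kf ι t a) :=
        ENNReal.ofReal_le_ofReal (h t ht.1 ht.2)
    _ ≤ ‖t ^ (-θ) * Kf ι t a‖ₑ := Real.ofReal_le_enorm _

end general

/-- bounded complex sequences -/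
abbrev X : Type u := lp (fun _ : ULift.{u} ℕ => ℂ) ∞

/-- the weights `2^{-n}` -/
noncomputable def w (i : ULift.{u} ℕ) : ℝ := (1 / 2 : ℝ) ^ i.down

theorem w_pos (i : ULift.{u} ℕ) : 0 < w i := by unfold w; positivity

theorem w_le_one (i : ULift.{u} ℕ) : w i ≤ 1 := by
  unfold w; exact pow_le_one₀ (by norm_num) (by norm_num)

theorem w_zero : w (ULift.up 0 : ULift.{u} ℕ) = 1 := by simp [w]

/-- build a bounded sequence -/
noncomputable def mk (f : ULift.{u} ℕ → ℂ) (C : ℝ) (h : ∀ i, ‖f i‖ ≤ C) : X.{u} :=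
  ⟨f, memℓp_infty ⟨C, by rintro _ ⟨i, rfl⟩; exact h i⟩⟩

@[simp] theorem mk_apply (f : ULift.{u} ℕ → ℂ) (C : ℝ) (h : ∀ i, ‖f i‖ ≤ C) (i : ULift.{u} ℕ) :
    (mk f C h) i = f i := rfl

theorem coord_le (y : X.{u}) (i : ULift.{u} ℕ) : ‖y i‖ ≤ ‖y‖ :=
  lp.norm_apply_le_norm (by simp) y i

theorem wmul_le (y : X.{u}) (i : ULift.{u} ℕ) : ‖(w i : ℂ) * y i‖ ≤ ‖y‖ := by
  rw [norm_mul, Complex.norm_real, Real.norm_of_nonneg (w_pos i).le]
  calc w i * ‖y i‖ ≤ 1 * ‖y‖ :=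
        mul_le_mul (w_le_one i) (coord_le y i) (norm_nonneg _) zero_le_one
    _ = ‖y‖ := one_mul _

/-- the inclusion `y ↦ (2^{-n} y_n)` as a linear map -/
noncomputable def incL : X.{u} →ₗ[ℂ] X.{u} where
  toFun y := mk (fun i => (w i : ℂ) * y i) ‖y‖ (wmul_le y)
  map_add' y z := by
    ext i
    simp [mul_add]
  map_smul' c y := by
    ext i
    simp only [mk_apply, lp.coeFn_smul, Pi.smul_apply, smul_eq_mul, RingHom.id_apply]
    ring

/-- the inclusion `y ↦ (2^{-n} y_n)` as a continuous linear map -/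
noncomputable def inc : X.{u} →L[ℂ] X.{u} :=
  incL.mkContinuous 1 fun y => by
    rw [one_mul]
    exact lp.norm_le_of_forall_le (norm_nonneg _) (wmul_le y)

@[simp] theorem inc_apply (y : X.{u}) (i : ULift.{u} ℕ) : (inc y) i = (w i : ℂ) * y i := rfl

theorem inc_injective : Function.Injective inc.{u} := by
  intro y z h
  ext i
  have h1 : (inc y) i = (inc z) i := by rw [h]
  simp only [inc_apply] at h1
  have h2 : (w i : ℂ) ≠ 0 := by exact_mod_cast (w_pos i).ne'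
  exact mul_left_cancel₀ h2 h1

theorem norm_min_max_le (A B r : ℝ) (hA : 0 ≤ A) (hB : 0 ≤ B) (hr : 0 ≤ r) :
    ‖((min A (max (B - r) 0) : ℝ) : ℂ)‖ ≤ B := by
  rw [Complex.norm_real, Real.norm_of_nonneg (le_min hA (le_max_right _ _))]
  exact le_trans (min_le_right _ _) (max_le (by linarith) hB)

theorem abs_min_max_sub (A A' B B' r D : ℝ) (hA : |A - A'| ≤ D) (hB : |B - B'| ≤ D) :
    |min A (max (B - r) 0) - min A' (max (B' - r) 0)| ≤ D := by
  refine le_trans (abs_min_sub_min_le_max _ _ _ _) (max_le hA ?_)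
  refine le_trans (abs_max_sub_max_le_abs _ _ _) ?_
  rwa [show B - r - (B' - r) = B - B' by ring]

/-- the nonlinear map on the big space -/
noncomputable def UU (θ : ℝ) (a : X.{u}) : X.{u} :=
  mk (fun i => ((min ‖a (ULift.up 0)‖ (max (‖a i‖ - w i ^ θ) 0) : ℝ) : ℂ)) ‖a‖ fun i =>
    le_trans (norm_min_max_le _ _ _ (norm_nonneg _) (norm_nonneg _)
      (Real.rpow_pos_of_pos (w_pos i) θ).le) (coord_le a i)

/-- the same map read on the small space -/
noncomputable def VV (θ : ℝ) (y : X.{u}) : X.{u} :=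
  mk (fun i => ((min (‖y (ULift.up 0)‖ / w i) (max (‖y i‖ - w i ^ θ / w i) 0) : ℝ) : ℂ)) ‖y‖
    fun i => le_trans (norm_min_max_le _ _ _ (div_nonneg (norm_nonneg _) (w_pos i).le)
      (norm_nonneg _) (div_nonneg (Real.rpow_pos_of_pos (w_pos i) θ).le (w_pos i).le))
      (coord_le y i)

theorem UU_apply (θ : ℝ) (a : X.{u}) (i : ULift.{u} ℕ) :
    (UU θ a) i = ((min ‖a (ULift.up 0)‖ (max (‖a i‖ - w i ^ θ) 0) : ℝ) : ℂ) := rfl

theorem VV_apply (θ : ℝ) (y : X.{u}) (i : ULift.{u} ℕ) :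
    (VV θ y) i =
      ((min (‖y (ULift.up 0)‖ / w i) (max (‖y i‖ - w i ^ θ / w i) 0) : ℝ) : ℂ) := rfl

theorem abs_norm_coord_sub (a b : X.{u}) (i : ULift.{u} ℕ) : |‖a i‖ - ‖b i‖| ≤ ‖a - b‖ := by
  refine le_trans (abs_norm_sub_norm_le _ _) ?_
  have := coord_le (a - b) i
  simpa using this

theorem UU_lip (θ : ℝ) (a b : X.{u}) : ‖UU θ a - UU θ b‖ ≤ 1 * ‖a - b‖ := by
  rw [one_mul]
  apply lp.norm_le_of_forall_le (norm_nonneg _)
  intro i
  rw [lp.coeFn_sub, Pi.sub_apply, UU_apply, UU_apply, ← Complex.ofReal_sub, Complex.norm_real,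
    Real.norm_eq_abs]
  exact abs_min_max_sub _ _ _ _ _ _ (abs_norm_coord_sub a b _) (abs_norm_coord_sub a b _)

theorem UU_inc (θ : ℝ) (y : X.{u}) : UU θ (inc y) = inc (VV θ y) := by
  ext i
  rw [UU_apply, inc_apply, inc_apply, inc_apply, VV_apply, ← Complex.ofReal_mul]
  congr 1
  have hw := w_pos i
  rw [w_zero, norm_mul, norm_mul, Complex.norm_real, Complex.norm_real,
    Real.norm_of_nonneg hw.le, mul_min_of_nonneg _ _ hw.le, mul_max_of_nonneg _ _ hw.le]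
  congr 1
  · simp only [norm_one, one_mul]; field_simp
  · congr 1
    · field_simp
    · simp

theorem VV_le (θ : ℝ) (y : X.{u}) : ‖VV θ y‖ ≤ 1 * ‖y‖ := by
  rw [one_mul]
  apply lp.norm_le_of_forall_le (norm_nonneg _)
  intro i
  rw [VV_apply]
  exact le_trans (norm_min_max_le _ _ _ (div_nonneg (norm_nonneg _) (w_pos i).le)
      (norm_nonneg _) (div_nonneg (Real.rpow_pos_of_pos (w_pos i) θ).le (w_pos i).le))
      (coord_le y i)

theorem VV_lip {θ : ℝ} (hθ : θ < 1) {R : ℝ} (hR : 1 ≤ R) (y z : X.{u}) (hy : ‖y‖ ≤ R)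
    (hz : ‖z‖ ≤ R) : ‖VV θ y - VV θ z‖ ≤ R ^ (1 - θ)⁻¹ * ‖y - z‖ := by
  have hR0 : 0 < R := by linarith
  have h1θ : 0 < 1 - θ := by linarith
  have hL : 1 ≤ R ^ (1 - θ)⁻¹ := Real.one_le_rpow hR (inv_pos.mpr h1θ).le
  apply lp.norm_le_of_forall_le (by positivity)
  intro i
  have hw := w_pos i
  rw [lp.coeFn_sub, Pi.sub_apply, VV_apply, VV_apply, ← Complex.ofReal_sub, Complex.norm_real,
    Real.norm_eq_abs]
  by_cases hc : R ≤ w i ^ θ / w i
  · have e1 : max (‖y i‖ - w i ^ θ / w i) 0 = 0 :=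
      max_eq_right (by linarith [coord_le y i])
    have e2 : max (‖z i‖ - w i ^ θ / w i) 0 = 0 :=
      max_eq_right (by linarith [coord_le z i])
    rw [e1, e2, min_eq_right (by positivity), min_eq_right (by positivity)]
    simp only [sub_self, abs_zero]
    positivity
  · push Not at hc
    have h2 : (w i)⁻¹ ≤ R ^ (1 - θ)⁻¹ := by
      have h3 : ((w i)⁻¹) ^ (1 - θ) ≤ R := by
        rw [Real.inv_rpow hw.le, ← Real.rpow_neg hw.le, neg_sub, Real.rpow_sub hw, Real.rpow_one]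
        exact hc.le
      calc (w i)⁻¹ = (((w i)⁻¹) ^ (1 - θ)) ^ (1 - θ)⁻¹ := by
            rw [Real.rpow_rpow_inv (inv_pos.mpr hw).le h1θ.ne']
        _ ≤ R ^ (1 - θ)⁻¹ :=
            Real.rpow_le_rpow (by positivity) h3 (inv_pos.mpr h1θ).le
    apply abs_min_max_sub
    · rw [← sub_div, abs_div, abs_of_pos hw, div_eq_inv_mul]
      exact mul_le_mul h2 (abs_norm_coord_sub y z _) (abs_nonneg _) (by positivity)
    · calc |‖y i‖ - ‖z i‖| ≤ 1 * ‖y - z‖ := by rw [one_mul]; exact abs_norm_coord_sub y z _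
        _ ≤ _ := mul_le_mul_of_nonneg_right hL (norm_nonneg _)

theorem VV_cont {θ : ℝ} (hθ : θ < 1) : Continuous (VV.{u} θ) := by
  rw [continuous_iff_continuousAt]
  intro y
  rw [Metric.continuousAt_iff]
  intro ε hε
  set L : ℝ := (‖y‖ + 1) ^ (1 - θ)⁻¹ with hL
  have hL0 : 0 < L := Real.rpow_pos_of_pos (by positivity) _
  refine ⟨min 1 (ε / L), lt_min one_pos (div_pos hε hL0), ?_⟩
  intro z hz
  rw [dist_eq_norm] at hz ⊢
  have hz1 : ‖z - y‖ < 1 := lt_of_lt_of_le hz (min_le_left _ _)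
  have hz2 : ‖z - y‖ < ε / L := lt_of_lt_of_le hz (min_le_right _ _)
  have hzn : ‖z‖ ≤ ‖y‖ + 1 := by
    have := norm_sub_norm_le z y
    linarith
  calc ‖VV θ z - VV θ y‖ ≤ L * ‖z - y‖ :=
        VV_lip hθ (by linarith [norm_nonneg y]) z y hzn (by linarith)
    _ < L * (ε / L) := mul_lt_mul_of_pos_left hz2 hL0
    _ = ε := by field_simp

/-- upper bound for the K-functional of a sequence dominated by `C w^θ` -/
theorem Kf_upper {θ : ℝ} (h0 : 0 < θ) (h1 : θ < 1) (c : X.{u}) {C : ℝ} (hC : 0 ≤ C)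
    (hc : ∀ i, ‖c i‖ ≤ C * w i ^ θ) {t : ℝ} (ht : 0 < t) :
    Kf inc.{u} t c ≤ (2 * C) * t ^ θ := by
  classical
  have hb : ∀ i, ‖(if t ≤ w i then c i / (w i : ℂ) else 0)‖ ≤ C * t ^ (θ - 1) := by
    intro i
    have hw := w_pos i
    split_ifs with h
    · rw [norm_div, Complex.norm_real, Real.norm_of_nonneg hw.le, div_le_iff₀ hw]
      refine le_trans (hc i) ?_
      rw [mul_assoc]
      apply mul_le_mul_of_nonneg_left _ hC
      have : w i ^ θ = w i ^ (θ - 1) * w i := by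
        rw [Real.rpow_sub hw, Real.rpow_one]; field_simp
      rw [this]
      apply mul_le_mul_of_nonneg_right _ hw.le
      exact Real.rpow_le_rpow_of_nonpos ht h (by linarith)
    · simp only [norm_zero]; positivity
  set y : X.{u} := mk _ _ hb with hy
  have hy1 : ‖y‖ ≤ C * t ^ (θ - 1) := lp.norm_le_of_forall_le (by positivity) hb
  have hy2 : ‖c - inc y‖ ≤ C * t ^ θ := by
    apply lp.norm_le_of_forall_le (by positivity)
    intro i
    have hw := w_pos i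
    have hw' : (w i : ℂ) ≠ 0 := by exact_mod_cast hw.ne'
    rw [lp.coeFn_sub, Pi.sub_apply, inc_apply, hy, mk_apply]
    split_ifs with h
    · rw [mul_div_cancel₀ _ hw', sub_self, norm_zero]; positivity
    · push Not at h
      rw [mul_zero, sub_zero]
      refine le_trans (hc i) (mul_le_mul_of_nonneg_left ?_ hC)
      exact Real.rpow_le_rpow hw.le h.le h0.le
  refine le_trans (Kf_le _ ht.le c y) ?_
  have h3 : t * (C * t ^ (θ - 1)) = C * t ^ θ := by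
    rw [Real.rpow_sub ht, Real.rpow_one]; field_simp
  have h4 : t * ‖y‖ ≤ t * (C * t ^ (θ - 1)) := mul_le_mul_of_nonneg_left hy1 ht.le
  linarith

/-- lower bound for the K-functional by one coordinate -/
theorem Kf_lower (c : X.{u}) (i : ULift.{u} ℕ) {t : ℝ} (ht : w i ≤ t) :
    ‖c i‖ ≤ Kf inc.{u} t c := by
  apply le_Kf
  intro y
  have h1 : ‖(c - inc y) i‖ ≤ ‖c - inc y‖ := coord_le _ i
  rw [lp.coeFn_sub, Pi.sub_apply, inc_apply] at h1
  have h2 : ‖(w i : ℂ) * y i‖ ≤ t * ‖y‖ := by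
    rw [norm_mul, Complex.norm_real, Real.norm_of_nonneg (w_pos i).le]
    exact mul_le_mul ht (coord_le y i) (norm_nonneg _) (le_trans (w_pos i).le ht)
  calc ‖c i‖ = ‖(c i - (w i : ℂ) * y i) + (w i : ℂ) * y i‖ := by rw [sub_add_cancel]
    _ ≤ ‖c i - (w i : ℂ) * y i‖ + ‖(w i : ℂ) * y i‖ := norm_add_le _ _
    _ ≤ _ := add_le_add h1 h2

/-- the sequence `(s, 2 w_1^θ, 2 w_2^θ, ...)` -/
noncomputable def pt (θ : ℝ) (h0 : 0 < θ) (s : ℝ) : X.{u} :=
  mk (fun i => if i = ULift.up 0 then (s : ℂ) else ((2 * w i ^ θ : ℝ) : ℂ)) (|s| + 2) fun i => by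
    have hw := w_pos i
    split_ifs with h
    · rw [Complex.norm_real, Real.norm_eq_abs]; linarith
    · rw [Complex.norm_real, Real.norm_of_nonneg (by positivity)]
      have : w i ^ θ ≤ 1 := Real.rpow_le_one hw.le (w_le_one i) h0.le
      linarith [abs_nonneg s]

theorem pt_apply (θ : ℝ) (h0 : 0 < θ) (s : ℝ) (i : ULift.{u} ℕ) :
    (pt θ h0 s) i = if i = ULift.up 0 then (s : ℂ) else ((2 * w i ^ θ : ℝ) : ℂ) := rfl

theorem pt_mem {θ : ℝ} (h0 : 0 < θ) (h1 : θ < 1) (s : ℝ) :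
    Knorm inc.{u} θ ∞ (pt θ h0 s) < ∞ := by
  refine lt_of_le_of_lt (Knorm_top_le _ θ _ (C := 2 * (|s| + 2)) ?_) ENNReal.ofReal_lt_top
  intro t ht
  apply Kf_upper h0 h1 _ (by positivity) _ ht
  intro i
  have hw := w_pos i
  rw [pt_apply]
  split_ifs with h
  · rw [h, w_zero, Real.one_rpow, Complex.norm_real, Real.norm_eq_abs]; linarith
  · rw [Complex.norm_real, Real.norm_of_nonneg (by positivity)]
    apply mul_le_mul_of_nonneg_right _ (by positivity)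
    linarith [abs_nonneg s]

theorem pt_sub {θ : ℝ} (h0 : 0 < θ) (h1 : θ < 1) (s : ℝ) :
    Knorm inc.{u} θ ∞ (pt θ h0 s - pt θ h0 0) ≤ ENNReal.ofReal (2 * |s|) := by
  refine Knorm_top_le _ θ _ ?_
  intro t ht
  apply Kf_upper h0 h1 _ (by positivity) _ ht
  intro i
  have hw := w_pos i
  rw [lp.coeFn_sub, Pi.sub_apply, pt_apply, pt_apply]
  split_ifs with h
  · rw [h, w_zero, Real.one_rpow]; simp
  · rw [sub_self, norm_zero]; positivity

theorem pt_jump {θ : ℝ} (h0 : 0 < θ) (h1 : θ < 1) {s : ℝ} (hs : 0 < s) :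
    ENNReal.ofReal (1 / 2) ≤ Knorm inc.{u} θ ∞ (UU θ (pt θ h0 s) - UU θ (pt θ h0 0)) := by
  obtain ⟨n, hn⟩ := exists_pow_lt_of_lt_one (x := min (1 / 2) (s ^ θ⁻¹)) (y := (1 / 2 : ℝ))
    (lt_min (by norm_num) (Real.rpow_pos_of_pos hs _)) (by norm_num)
  set i : ULift.{u} ℕ := ULift.up n with hi
  have hwi : w i = (1 / 2 : ℝ) ^ n := rfl
  have hw := w_pos i
  have hi0 : i ≠ ULift.up 0 := by
    intro h
    have h2 : w i = 1 := by rw [h, w_zero]
    have h3 : w i < 1 / 2 := by rw [hwi]; exact lt_of_lt_of_le hn (min_le_left _ _)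
    linarith
  have hws : w i ^ θ ≤ s := by
    have h3 : w i ≤ s ^ θ⁻¹ := by rw [hwi]; exact (lt_of_lt_of_le hn (min_le_right _ _)).le
    calc w i ^ θ ≤ (s ^ θ⁻¹) ^ θ := Real.rpow_le_rpow hw.le h3 h0.le
      _ = s := Real.rpow_inv_rpow hs.le h0.ne'
  have hwθ : 0 < w i ^ θ := Real.rpow_pos_of_pos hw _
  have hval : ‖(UU θ (pt θ h0 s) - UU θ (pt θ h0 0)) i‖ = w i ^ θ := by
    rw [lp.coeFn_sub, Pi.sub_apply, UU_apply, UU_apply, pt_apply, pt_apply, pt_apply, pt_apply,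
      if_pos rfl, if_pos rfl, if_neg hi0, if_neg hi0, ← Complex.ofReal_sub]
    simp only [Complex.norm_real]
    rw [Real.norm_of_nonneg hs.le, Real.norm_of_nonneg (by positivity : 0 ≤ 2 * w i ^ θ),
      show 2 * w i ^ θ - w i ^ θ = w i ^ θ by ring, max_eq_left hwθ.le, min_eq_right hws,
      norm_zero, min_eq_left hwθ.le, sub_zero, Real.norm_of_nonneg hwθ.le]
  apply le_Knorm_top _ θ _ hw
  intro t ht1 ht2
  have ht : 0 < t := lt_of_lt_of_le hw ht1
  have h2 := Kf_lower (UU θ (pt θ h0 s) - UU θ (pt θ h0 0)) i ht1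
  rw [hval] at h2
  have h3 : (2 * w i) ^ (-θ) ≤ t ^ (-θ) := Real.rpow_le_rpow_of_nonpos ht ht2 (by linarith)
  have h4 : (1 / 2 : ℝ) ≤ (2 * w i) ^ (-θ) * w i ^ θ := by
    rw [Real.mul_rpow (by norm_num) hw.le, mul_assoc, ← Real.rpow_add hw, neg_add_cancel,
      Real.rpow_zero, mul_one]
    calc (1 / 2 : ℝ) = 2 ^ (-1 : ℝ) := by rw [Real.rpow_neg_one]; norm_num
      _ ≤ 2 ^ (-θ) := Real.rpow_le_rpow_of_exponent_le (by norm_num) (by linarith)
  exact le_trans h4 (mul_le_mul h3 h2 hwθ.le (Real.rpow_pos_of_pos ht _).le)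

/-- discontinuity at the point `pt θ 0` in the `(θ,∞)` K-norm -/
theorem discont {θ : ℝ} (h0 : 0 < θ) (h1 : θ < 1) :
    ¬ ∃ δ : ℝ≥0∞, 0 < δ ∧ ∀ b : X.{u}, Knorm inc.{u} θ ∞ b < ∞ →
      Knorm inc.{u} θ ∞ (b - pt θ h0 0) < δ →
      Knorm inc.{u} θ ∞ (UU θ b - UU θ (pt θ h0 0)) < ENNReal.ofReal (1 / 2) := by
  rintro ⟨δ, hδ, h⟩
  obtain ⟨r, hr0, hr⟩ : ∃ r : ℝ, 0 < r ∧ ENNReal.ofReal r < δ := by
    obtain ⟨r, -, h2, h3⟩ := ENNReal.lt_iff_exists_real_btwn.mp hδ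
    exact ⟨r, ENNReal.ofReal_pos.mp h2, h3⟩
  have h2 := h (pt θ h0 (r / 2)) (pt_mem h0 h1 _) (by
    refine lt_of_le_of_lt (pt_sub h0 h1 _) ?_
    rwa [abs_of_pos (by positivity), show 2 * (r / 2) = r by ring])
  exact absurd (pt_jump h0 h1 (s := r / 2) (by positivity)) (not_le.mpr h2)

end Pool.Agent.MP_37b4fc_an
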