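import Mathlib.Algebra.Order.Ring.Star
import Mathlib.MeasureTheory.Integral.Lebesgue.DominatedConvergence
import Mathlib.Analysis.Normed.Group.Indicator
import Mathlib.MeasureTheory.Function.LpSeminorm.SMul
import Mathlib.MeasureTheory.Function.LpSeminorm.TriangleInequality
import Pool.Agent.MP_37b4fc_an.Counter

set_option autoImplicit false
open MeasureTheory Filter Topology
open scoped ENNReal

namespace Pool.Agent.MP_37b4fc_an

section general
variable {E0 E1 F0 F1 : Type*} [NormedAddCommGroup E0] [NormedAddCommGroup E1]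
  [NormedAddCommGroup F0] [NormedAddCommGroup F1]

theorem Kf_mono (ι : E1 → E0) (a : E0) : MonotoneOn (fun t => Kf ι t a) (Set.Ioi 0) := by
  intro s hs t _ hst
  apply le_Kf
  intro y
  refine le_trans (Kf_le ι (le_of_lt hs) a y) ?_
  have := mul_le_mul_of_nonneg_right hst (norm_nonneg y)
  linarith

theorem Kf_meas (ι : E1 → E0) (θ : ℝ) (a : E0) :
    AEStronglyMeasurable (fun t : ℝ => t ^ (-θ) * Kf ι t a) mu := by
  have h1 : AEMeasurable (fun t => Kf ι t a) (volume.restrict (Set.Ioi (0:ℝ))) :=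
    aemeasurable_restrict_of_monotoneOn measurableSet_Ioi (Kf_mono ι a)
  have h2 : AEMeasurable (fun t : ℝ => t ^ (-θ) * Kf ι t a) (volume.restrict (Set.Ioi (0:ℝ))) :=
    (measurable_id.pow_const (-θ)).aemeasurable.mul h1
  exact (h2.mono_ac (withDensity_absolutelyContinuous _ _)).aestronglyMeasurable

theorem le_mul_Kf (ι : E1 → E0) (t : ℝ) (a : E0) {c M : ℝ} (hM : 0 < M)
    (h : ∀ y, c ≤ M * (‖a - ι y‖ + t * ‖y‖)) : c ≤ M * Kf ι t a := by
  rw [← div_le_iff₀' hM]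
  apply le_Kf
  intro y
  rw [div_le_iff₀' hM]
  exact h y

theorem Kf_U_near (ιA : E1 →+ E0) (ιB : F1 →+ F0) (U : E0 → F0) (V : E1 → F1) {M : ℝ}
    (hM : 0 < M) (hU : ∀ a b, ‖U a - U b‖ ≤ M * ‖a - b‖) (hUV : ∀ x, U (ιA x) = ιB (V x))
    (hV : ∀ x, ‖V x‖ ≤ M * ‖x‖) {t : ℝ} (ht : 0 ≤ t) (a b : E0) :
    Kf ιB t (U b - U a) ≤ (2 * M) * Kf ιA t a + M * Kf ιA t (b - a) := by
  rw [← sub_le_iff_le_add]
  apply le_mul_Kf _ _ _ (by positivity)
  intro y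
  rw [sub_le_comm]
  apply le_mul_Kf _ _ _ hM
  intro z
  have h1 := Kf_le ιB ht (U b - U a) (V (y + z) - V y)
  have h2 : U b - U a - ιB (V (y + z) - V y) = (U b - U (ιA (y + z))) - (U a - U (ιA y)) := by
    rw [map_sub, ← hUV, ← hUV]; abel
  have h3 : ‖U b - U a - ιB (V (y + z) - V y)‖ ≤ M * ‖b - ιA (y + z)‖ + M * ‖a - ιA y‖ := by
    rw [h2]
    exact le_trans (norm_sub_le _ _) (add_le_add (hU _ _) (hU _ _))
  have h4 : ‖b - ιA (y + z)‖ ≤ ‖a - ιA y‖ + ‖b - a - ιA z‖ := by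
    have : b - ιA (y + z) = (a - ιA y) + (b - a - ιA z) := by rw [map_add]; abel
    rw [this]; exact norm_add_le _ _
  have h5 : ‖V (y + z) - V y‖ ≤ M * (‖y‖ + ‖z‖) + M * ‖y‖ :=
    le_trans (norm_sub_le _ _) (add_le_add
      (le_trans (hV _) (mul_le_mul_of_nonneg_left (norm_add_le _ _) hM.le)) (hV _))
  have h6 := mul_le_mul_of_nonneg_left h5 ht
  have h7 := mul_le_mul_of_nonneg_left h4 hM.le
  nlinarith

theorem Kf_U_far (ιA : E1 →+ E0) (ιB : F1 →+ F0) (U : E0 → F0) {M L τ : ℝ}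
    (hM : 0 < M) (hU : ∀ a b, ‖U a - U b‖ ≤ M * ‖a - b‖) (hL : 0 ≤ L)
    (hι : ∀ y, ‖ιA y‖ ≤ L * ‖y‖) (hτ : 0 < τ) {t : ℝ} (ht : τ ≤ t) (a b : E0) :
    Kf ιB t (U b - U a) ≤ (M * (1 + L / τ)) * Kf ιA t (b - a) := by
  have ht0 : 0 ≤ t := le_trans hτ.le ht
  apply le_mul_Kf _ _ _ (by positivity)
  intro z
  have h1 := Kf_le ιB ht0 (U b - U a) 0
  rw [map_zero, sub_zero, norm_zero, mul_zero, add_zero] at h1
  have h2 : ‖b - a‖ ≤ ‖b - a - ιA z‖ + L * ‖z‖ := by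
    calc ‖b - a‖ = ‖(b - a - ιA z) + ιA z‖ := by rw [sub_add_cancel]
      _ ≤ ‖b - a - ιA z‖ + ‖ιA z‖ := norm_add_le _ _
      _ ≤ _ := add_le_add le_rfl (hι z)
  have h3 : L * ‖z‖ ≤ L / τ * (t * ‖z‖) := by
    have : L / τ * (t * ‖z‖) = L * ‖z‖ * (t / τ) := by field_simp
    rw [this]
    exact le_mul_of_one_le_right (by positivity) ((one_le_div hτ).mpr ht)
  have h4 : 0 ≤ L / τ * ‖b - a - ιA z‖ := by positivity
  have h5 : 0 ≤ t * ‖z‖ := by positivity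
  have h6 : ‖b - a‖ ≤ (1 + L / τ) * (‖b - a - ιA z‖ + t * ‖z‖) := by nlinarith
  calc Kf ιB t (U b - U a) ≤ M * ‖b - a‖ := le_trans h1 (hU _ _)
    _ ≤ M * ((1 + L / τ) * (‖b - a - ιA z‖ + t * ‖z‖)) := mul_le_mul_of_nonneg_left h6 hM.le
    _ = _ := by ring

/-- for `p < ∞` the part of an `L^p(dt/t)` function near `0` has small norm -/
theorem small_near_zero {f : ℝ → ℝ} {p : ℝ≥0∞} (hp : 1 ≤ p) (hp' : p ≠ ∞)
    (hf : AEStronglyMeasurable f mu) (hfin : eLpNorm f p mu < ∞) {ε : ℝ≥0∞} (hε : 0 < ε) :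
    ∃ τ : ℝ, 0 < τ ∧ eLpNorm ((Set.Iio τ).indicator f) p mu < ε := by
  have hp0 : p ≠ 0 := (lt_of_lt_of_le zero_lt_one hp).ne'
  have hq : 0 < p.toReal := ENNReal.toReal_pos hp0 hp'
  have hfin' : ∫⁻ t, ‖f t‖ₑ ^ p.toReal ∂mu ≠ ∞ :=
    (lintegral_rpow_enorm_lt_top_of_eLpNorm_lt_top hp0 hp' hfin).ne
  have hlim : Tendsto (fun n : ℕ => ∫⁻ t, ‖(Set.Iio (1 / ((n : ℝ) + 1))).indicator f t‖ₑ ^ p.toReal ∂mu)
      atTop (𝓝 (∫⁻ _t, 0 ∂mu)) := by
    apply tendsto_lintegral_of_dominated_convergence' (fun t => ‖f t‖ₑ ^ p.toReal)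
    · intro n
      exact ((hf.indicator measurableSet_Iio).enorm.pow_const _)
    · intro n
      filter_upwards with t
      apply ENNReal.rpow_le_rpow _ hq.le
      exact enorm_indicator_le_enorm_self _ _
    · exact hfin'
    · filter_upwards [ae_pos] with t ht
      apply tendsto_const_nhds.congr'
      have h1 : ∀ᶠ n : ℕ in atTop, 1 / ((n : ℝ) + 1) < t :=
        (tendsto_one_div_add_atTop_nhds_zero_nat (𝕜 := ℝ)).eventually (gt_mem_nhds ht)
      filter_upwards [h1] with n hn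
      rw [Set.indicator_of_notMem (by simpa using hn.le)]
      simp [hq]
  rw [lintegral_zero] at hlim
  have hε' : 0 < ε ^ p.toReal := ENNReal.rpow_pos_of_nonneg hε hq.le
  obtain ⟨n, hn⟩ := (hlim.eventually (gt_mem_nhds hε')).exists
  refine ⟨1 / ((n : ℝ) + 1), by positivity, ?_⟩
  rw [eLpNorm_eq_lintegral_rpow_enorm_toReal hp0 hp']
  calc _ < (ε ^ p.toReal) ^ (1 / p.toReal) := ENNReal.rpow_lt_rpow hn (by positivity)
    _ = ε := by rw [← ENNReal.rpow_mul, mul_one_div_cancel hq.ne', ENNReal.rpow_one]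

/-- continuity on the K-method spaces for `p < ∞` -/
theorem cont_finite (ιA : E1 →+ E0) (ιB : F1 →+ F0) (U : E0 → F0) (V : E1 → F1) {M0 M1 L : ℝ}
    (hL : 0 ≤ L) (hι : ∀ y, ‖ιA y‖ ≤ L * ‖y‖)
    (hU : ∀ a b, ‖U a - U b‖ ≤ M0 * ‖a - b‖) (hUV : ∀ x, U (ιA x) = ιB (V x))
    (hV : ∀ x, ‖V x‖ ≤ M1 * ‖x‖) (θ : ℝ) {p : ℝ≥0∞} (hp : 1 ≤ p) (hp' : p ≠ ∞)
    (a : E0) (ha : Knorm ιA θ p a < ∞) {ε : ℝ≥0∞} (hε : 0 < ε) :
    ∃ δ : ℝ≥0∞, 0 < δ ∧ ∀ b : E0, Knorm ιA θ p (b - a) < δ → Knorm ιB θ p (U b - U a) < ε := by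
  set M : ℝ := max 1 (max M0 M1) with hMdef
  have hM : 0 < M := lt_of_lt_of_le one_pos (le_max_left _ _)
  have hU' : ∀ a b, ‖U a - U b‖ ≤ M * ‖a - b‖ := fun a b => le_trans (hU a b)
    (mul_le_mul_of_nonneg_right (le_trans (le_max_left _ _) (le_max_right _ _)) (norm_nonneg _))
  have hV' : ∀ x, ‖V x‖ ≤ M * ‖x‖ := fun x => le_trans (hV x)
    (mul_le_mul_of_nonneg_right (le_trans (le_max_right _ _) (le_max_right _ _)) (norm_nonneg _))
  have hε2 : 0 < ε / 2 := ENNReal.half_pos hε.ne'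
  set fa : ℝ → ℝ := fun t : ℝ => t ^ (-θ) * Kf ιA t a with hfa
  have hfam : AEStronglyMeasurable ((2 * M) • fa) mu := (Kf_meas ιA θ a).const_smul _
  have hfin : eLpNorm ((2 * M) • fa) p mu < ∞ := by
    rw [eLpNorm_const_smul]
    exact ENNReal.mul_lt_top enorm_lt_top ha
  obtain ⟨τ, hτ, hτε⟩ := small_near_zero hp hp' hfam hfin hε2
  set C : ℝ := M * (1 + L / τ) with hC
  have hC0 : 0 < C := by positivity
  have hMC : M ≤ C := le_mul_of_one_le_right hM.le (by have : 0 ≤ L / τ := by positivity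
                                                       linarith)
  have hCe : ‖C‖ₑ ≠ 0 := by simpa using hC0.ne'
  have hCt : ‖C‖ₑ ≠ ∞ := enorm_ne_top
  refine ⟨ε / 2 / ‖C‖ₑ, ENNReal.div_pos hε2.ne' hCt, ?_⟩
  intro b hb
  set fb : ℝ → ℝ := fun t : ℝ => t ^ (-θ) * Kf ιA t (b - a) with hfb
  have hfbm : AEStronglyMeasurable (C • fb) mu := (Kf_meas ιA θ (b - a)).const_smul _
  have h1 : Knorm ιB θ p (U b - U a) ≤
      eLpNorm ((Set.Iio τ).indicator ((2 * M) • fa) + C • fb) p mu := by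
    apply eLpNorm_mono_ae
    filter_upwards [ae_pos] with t ht
    have htθ : 0 < t ^ (-θ) := Real.rpow_pos_of_pos ht _
    rw [Real.norm_of_nonneg (mul_nonneg htθ.le (Kf_nonneg _ ht.le _))]
    refine le_trans ?_ (le_abs_self _)
    have hKb := Kf_nonneg ιA ht.le (b - a)
    by_cases hc : t < τ
    · rw [Pi.add_apply, Set.indicator_of_mem (by simpa using hc)]
      simp only [Pi.smul_apply, smul_eq_mul, hfa, hfb]
      have h2 := Kf_U_near ιA ιB U V hM hU' hUV hV' ht.le a b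
      have h3 := mul_le_mul_of_nonneg_right hMC hKb
      have h4 := mul_le_mul_of_nonneg_left (le_trans h2 (add_le_add le_rfl h3)) htθ.le
      linarith
    · rw [Pi.add_apply, Set.indicator_of_notMem (by simpa using hc)]
      simp only [Pi.smul_apply, smul_eq_mul, hfb]
      have h2 := Kf_U_far ιA ιB U hM hU' hL hι hτ (not_lt.mp hc) a b
      have h4 := mul_le_mul_of_nonneg_left h2 htθ.le
      linarith
  have h2 := eLpNorm_add_le (hfam.indicator (measurableSet_Iio (a := τ))) hfbm hp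
  have h3 : eLpNorm (C • fb) p mu ≤ ε / 2 := by
    rw [eLpNorm_const_smul]
    calc ‖C‖ₑ * eLpNorm fb p mu ≤ ‖C‖ₑ * (ε / 2 / ‖C‖ₑ) := by gcongr; exact hb.le
      _ = ε / 2 := ENNReal.mul_div_cancel hCe hCt
  have h4 : eLpNorm (C • fb) p mu ≠ ∞ := by
    rw [eLpNorm_const_smul]
    exact ENNReal.mul_ne_top hCt (lt_of_lt_of_le hb le_top).ne
  calc Knorm ιB θ p (U b - U a) ≤ _ := le_trans h1 h2
    _ < ε / 2 + ε / 2 := ENNReal.add_lt_add_of_lt_of_le h4 hτε h3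
    _ = ε := ENNReal.add_halves ε

end general

end Pool.Agent.MP_37b4fc_an
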